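import Mathlib
import Pool.Agent.Harm938.Mob

open Complex Set Metric

namespace Pool.Agent.Results.MP_35dab7_an.NonUniqueness

open Pool.Agent.Harm938

/-- `f` is a solution for `(Ω, ω, w₀)`: a sense-preserving harmonic mapping of the unit disc onto
`Ω` with dilatation `ω` and with `f(0) = w₀`, `f_z(0) > 0`.  Here `f = h + conj g` with `h`, `g`
analytic in the disc, so that `f_z = h'` and the conjugate of `f_{\bar z}` is `g'`; `f` is
sense-preserving (`|g'| < |h'|`), its dilatation `g'/h'` is `ω`, `f` is univalent in the disc and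
maps it onto `Ω`. -/
def IsSolution (Ω : Set ℂ) (ω : ℂ → ℂ) (w₀ : ℂ) (f : ℂ → ℂ) : Prop :=
  ∃ h g : ℂ → ℂ,
    DifferentiableOn ℂ h (ball 0 1) ∧ DifferentiableOn ℂ g (ball 0 1) ∧
    (∀ z ∈ ball (0:ℂ) 1, f z = h z + (starRingEnd ℂ) (g z)) ∧
    (∀ z ∈ ball (0:ℂ) 1, ‖deriv g z‖ < ‖deriv h z‖) ∧
    (∀ z ∈ ball (0:ℂ) 1, ω z = deriv g z / deriv h z) ∧
    InjOn f (ball 0 1) ∧ f '' ball 0 1 = Ω ∧ f 0 = w₀ ∧
    (deriv h 0).im = 0 ∧ 0 < (deriv h 0).re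

theorem norm_sub_lt_norm_add {q : ℂ} (hq : 1 ≤ q.re) : ‖q - 1‖ < ‖q + 1‖ := by
  apply lt_of_pow_lt_pow_left₀ 2 (norm_nonneg _)
  rw [← Complex.normSq_eq_norm_sq, ← Complex.normSq_eq_norm_sq, Complex.normSq_apply,
    Complex.normSq_apply]
  simp only [sub_re, sub_im, add_re, add_im, one_re, one_im]
  nlinarith

theorem combo (A q : ℂ) :
    (A.re : ℂ) + (q.im : ℂ) * I = (A + q) / 2 + (starRingEnd ℂ) ((A - q) / 2) := by
  have e : ∀ w : ℂ, w / 2 = ((1/2 : ℝ) : ℂ) * w := by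
    intro w; push_cast; ring
  rw [e, e]
  apply Complex.ext
  · rw [add_re, add_re, conj_re, re_ofReal_mul, re_ofReal_mul, re_ofReal_mul, ofReal_re, add_re,
      sub_re, I_re]
    ring
  · rw [add_im, add_im, conj_im, im_ofReal_mul, im_ofReal_mul, im_ofReal_mul, ofReal_im, add_im,
      sub_im, I_im]
    ring

theorem isSolution_of {a B : ℝ} (ha : 0 < a) {A p : ℂ → ℂ}
    (hA : ∀ s, 0 < s.im → HasDerivAt A (p s * dpsi a B s) s)
    (hp : ∀ s, 0 < s.im → 1 ≤ (p s).re) {c d Xc Xd : ℝ} (hc : c < 0) (hd : 0 < d)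
    (hc0 : a * c^2 + B * c - 1 = 0) (hd0 : a * d^2 + B * d - 1 = 0)
    (hXc : Filter.Tendsto (fun s => (A s).re) (nhdsWithin (c:ℂ) UH) (nhds Xc))
    (hXd : Filter.Tendsto (fun s => (A s).re) (nhdsWithin (d:ℂ) UH) (nhds Xd))
    {N N' ω : ℂ → ℂ} (hN : ∀ z ∈ ball (0:ℂ) 1, HasDerivAt N (N' z) z)
    (hN' : ∀ z ∈ ball (0:ℂ) 1, N' z ≠ 0) (hmem : ∀ z ∈ ball (0:ℂ) 1, 0 < (N z).im)
    (hinj : InjOn N (ball 0 1)) (hsurj : ∀ s : ℂ, 0 < s.im → ∃ z ∈ ball (0:ℂ) 1, N z = s)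
    (hω : ∀ z ∈ ball (0:ℂ) 1, ω z = (p (N z) - 1) / (p (N z) + 1))
    {r : ℝ} (hr : 0 < r) (hpos : (p (N 0) + 1) * dpsi a B (N 0) * N' 0 = (r:ℂ)) :
    IsSolution (slitPl Xd Xc) ω (shear a B A (N 0)) (fun z => shear a B A (N z)) := by
  have hdh : ∀ z ∈ ball (0:ℂ) 1, HasDerivAt (fun z => (A (N z) + psi a B (N z)) / 2)
      ((p (N z) + 1) * dpsi a B (N z) * N' z / 2) z := by
    intro z hz
    have h1 := (hA _ (hmem z hz)).comp z (hN z hz)
    have h2 := (psi_hasDerivAt a B (hmem z hz)).comp z (hN z hz)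
    have h3 := (h1.add h2).div_const 2
    have e : (p (N z) * dpsi a B (N z) * N' z + dpsi a B (N z) * N' z) / 2
        = (p (N z) + 1) * dpsi a B (N z) * N' z / 2 := by ring
    rw [e] at h3
    exact h3
  have hdg : ∀ z ∈ ball (0:ℂ) 1, HasDerivAt (fun z => (A (N z) - psi a B (N z)) / 2)
      ((p (N z) - 1) * dpsi a B (N z) * N' z / 2) z := by
    intro z hz
    have h1 := (hA _ (hmem z hz)).comp z (hN z hz)
    have h2 := (psi_hasDerivAt a B (hmem z hz)).comp z (hN z hz)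
    have h3 := (h1.sub h2).div_const 2
    have e : (p (N z) * dpsi a B (N z) * N' z - dpsi a B (N z) * N' z) / 2
        = (p (N z) - 1) * dpsi a B (N z) * N' z / 2 := by ring
    rw [e] at h3
    exact h3
  have hfac : ∀ z ∈ ball (0:ℂ) 1, dpsi a B (N z) * N' z ≠ 0 := fun z hz =>
    mul_ne_zero (dpsi_ne B ha.le (hmem z hz)) (hN' z hz)
  have hp1 : ∀ z ∈ ball (0:ℂ) 1, p (N z) + 1 ≠ 0 := by
    intro z hz h
    have h1 := hp _ (hmem z hz)
    have h2 := congrArg Complex.re h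
    simp at h2
    linarith
  have h0 : (0:ℂ) ∈ ball (0:ℂ) 1 := by simp
  refine ⟨fun z => (A (N z) + psi a B (N z)) / 2, fun z => (A (N z) - psi a B (N z)) / 2,
    ?_, ?_, ?_, ?_, ?_, ?_, ?_, ?_, ?_, ?_⟩
  · exact fun z hz => (hdh z hz).differentiableAt.differentiableWithinAt
  · exact fun z hz => (hdg z hz).differentiableAt.differentiableWithinAt
  · intro z hz
    exact combo (A (N z)) (psi a B (N z))
  · intro z hz
    have h1 := norm_sub_lt_norm_add (hp _ (hmem z hz))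
    have h2 : 0 < ‖dpsi a B (N z) * N' z‖ := norm_pos_iff.mpr (hfac z hz)
    have h3 : (0:ℝ) < ‖(2:ℂ)‖ := by simp
    have e : ∀ q : ℂ, ‖q * dpsi a B (N z) * N' z / 2‖ = ‖q‖ * ‖dpsi a B (N z) * N' z‖ / ‖(2:ℂ)‖ := by
      intro q
      rw [norm_div, mul_assoc, norm_mul]
    rw [(hdh z hz).deriv, (hdg z hz).deriv, e, e]
    exact div_lt_div_of_pos_right (mul_lt_mul_of_pos_right h1 h2) h3
  · intro z hz
    rw [(hdh z hz).deriv, (hdg z hz).deriv, hω z hz]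
    have h1 := hp1 z hz
    have h2 := dpsi_ne B ha.le (hmem z hz)
    have h3 := hN' z hz
    field_simp
  · intro z hz w hw h
    have h1 := shear_injOn ha hA hp (show N z ∈ UH from hmem z hz) (show N w ∈ UH from hmem w hw) h
    exact hinj hz hw h1
  · rw [← shear_image ha hA hp hc hd hc0 hd0 hXc hXd]
    ext w
    constructor
    · rintro ⟨z, hz, rfl⟩
      exact ⟨N z, hmem z hz, rfl⟩
    · rintro ⟨s, hs, rfl⟩
      obtain ⟨z, hz, hz2⟩ := hsurj s hs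
      exact ⟨z, hz, by show shear a B A (N z) = _; rw [hz2]⟩
  · rfl
  · rw [(hdh 0 h0).deriv, hpos]
    have : ((r:ℂ)/2) = ((r/2 : ℝ) : ℂ) := by push_cast; ring
    rw [this, ofReal_im]
  · rw [(hdh 0 h0).deriv, hpos]
    have : ((r:ℂ)/2) = ((r/2 : ℝ) : ℂ) := by push_cast; ring
    rw [this, ofReal_re]
    linarith

/-- **Uniqueness fails.** There are a simply connected plane domain `Ω ≠ ℂ`, a point `w₀ ∈ Ω`, an
analytic self-map `ω` of the unit disc and two different solutions for `(Ω, ω, w₀)`. -/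
theorem result :
    ∃ (Ω : Set ℂ) (w₀ : ℂ) (ω f₁ f₂ : ℂ → ℂ),
      IsOpen Ω ∧ IsSimplyConnected Ω ∧ Ω ≠ univ ∧ w₀ ∈ Ω ∧
      DifferentiableOn ℂ ω (ball 0 1) ∧ MapsTo ω (ball 0 1) (ball 0 1) ∧
      IsSolution Ω ω w₀ f₁ ∧ IsSolution Ω ω w₀ f₂ ∧ ∃ z ∈ ball (0:ℂ) 1, f₁ z ≠ f₂ z := by
  obtain ⟨c₁, d₁, hc1, hd1, hc10, hd10⟩ := exists_tips (81/2) one_pos
  obtain ⟨c₂, d₂, hc2, hd2, hc20, hd20⟩ := exists_tips BB aa_pos
  obtain ⟨m₁, m₂, C, hm1, hm2, hbase, hdd, hcc⟩ := matching hc1 hd1 hc2 hd2 hc20 hd20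
  have h80 : 1/80 < d₂ := lt_d aa_pos hd2 hd20 (by norm_num) (by unfold aa BB; norm_num)
  have h162 : -162 < c₂ := lt_c aa_pos hc2 hc20 (by norm_num) (by unfold aa BB; norm_num)
  have hmu : (0:ℝ) < mu0.im := by rw [mu0_im]; norm_num
  -- the rotation
  set W : ℂ := (p1 m₁ m₂ mu0 + 1) * dpsi 1 (81/2) mu0 * (2 * I) with hW
  have hp1ne : p1 m₁ m₂ mu0 + 1 ≠ 0 := by
    intro h
    have h1 := p1_re hm1 hm2 hmu
    have h2 := congrArg Complex.re h
    simp at h2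
    linarith
  have hWne : W ≠ 0 := mul_ne_zero (mul_ne_zero hp1ne (dpsi_ne _ zero_le_one hmu)) (by simp)
  have hWn : 0 < ‖W‖ := norm_pos_iff.mpr hWne
  set ζ : ℂ := (starRingEnd ℂ) W / (‖W‖ : ℂ) with hζ
  have hζn : ‖ζ‖ = 1 := by
    rw [hζ, norm_div, Complex.norm_conj, Complex.norm_real, norm_norm, div_self hWn.ne']
  have hζW : W * ζ = (‖W‖ : ℂ) := by
    have hne : (‖W‖ : ℂ) ≠ 0 := by exact_mod_cast hWn.ne'
    rw [hζ, mul_div_assoc', Complex.mul_conj, Complex.normSq_eq_norm_sq]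
    push_cast
    field_simp
  have hζ0 : ζ ≠ 0 := by
    intro h; rw [h, norm_zero] at hζn; exact zero_ne_one hζn
  -- the uniformisation
  have hball : ∀ z ∈ ball (0:ℂ) 1, ‖ζ * z‖ < 1 := by
    intro z hz
    rw [norm_mul, hζn, one_mul]
    simpa using hz
  set N₁ : ℂ → ℂ := fun z => mob (ζ * z) with hN1
  set N₁' : ℂ → ℂ := fun z => 2 * I / (1 - ζ * z)^2 * ζ with hN1'
  have hN1d : ∀ z ∈ ball (0:ℂ) 1, HasDerivAt N₁ (N₁' z) z := by
    intro z hz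
    have h1 : HasDerivAt (fun z : ℂ => ζ * z) ζ z := by
      have := (hasDerivAt_id z).const_mul ζ
      rw [mul_one] at this
      exact this
    exact (mob_deriv (hball z hz)).comp z h1
  have hN1ne : ∀ z ∈ ball (0:ℂ) 1, N₁' z ≠ 0 := by
    intro z hz
    have h1 := one_sub_ne (hball z hz)
    exact mul_ne_zero (div_ne_zero (by simp) (pow_ne_zero 2 h1)) hζ0
  have hN1mem : ∀ z ∈ ball (0:ℂ) 1, 0 < (N₁ z).im := fun z hz => mob_im (hball z hz)
  have hN1inj : InjOn N₁ (ball 0 1) := by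
    intro z hz w hw h
    have h1 := mob_injOn (show ζ * z ∈ ball (0:ℂ) 1 by simpa using hball z hz)
      (show ζ * w ∈ ball (0:ℂ) 1 by simpa using hball w hw) h
    exact mul_left_cancel₀ hζ0 h1
  have hN1surj : ∀ s : ℂ, 0 < s.im → ∃ z ∈ ball (0:ℂ) 1, N₁ z = s := by
    intro s hs
    obtain ⟨w, hw1, hw2⟩ := mob_surjOn hs
    refine ⟨ζ⁻¹ * w, ?_, ?_⟩
    · rw [mem_ball_zero_iff, norm_mul, norm_inv, hζn, inv_one, one_mul]; exact hw1
    · show mob (ζ * (ζ⁻¹ * w)) = s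
      rw [← mul_assoc, mul_inv_cancel₀ hζ0, one_mul]; exact hw2
  have hN10 : N₁ 0 = mu0 := by
    show mob (ζ * 0) = mu0
    rw [mul_zero, mob_zero]
  have hN10' : N₁' 0 = 2 * I * ζ := by
    show 2 * I / (1 - ζ * 0)^2 * ζ = 2 * I * ζ
    simp
  set N₂ : ℂ → ℂ := fun z => TT (N₁ z) with hN2
  set N₂' : ℂ → ℂ := fun z => 25922 / (160 - N₁ z)^2 * N₁' z with hN2'
  have hN2d : ∀ z ∈ ball (0:ℂ) 1, HasDerivAt N₂ (N₂' z) z := fun z hz =>
    (TT_deriv (hN1mem z hz)).comp z (hN1d z hz)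
  have hN2ne : ∀ z ∈ ball (0:ℂ) 1, N₂' z ≠ 0 := fun z hz =>
    mul_ne_zero (div_ne_zero (by norm_num) (pow_ne_zero 2 (den_ne (hN1mem z hz)))) (hN1ne z hz)
  have hN2mem : ∀ z ∈ ball (0:ℂ) 1, 0 < (N₂ z).im := fun z hz => TT_im (hN1mem z hz)
  have hN2inj : InjOn N₂ (ball 0 1) := by
    intro z hz w hw h
    exact hN1inj hz hw (TT_injOn (show N₁ z ∈ UH from hN1mem z hz) (show N₁ w ∈ UH from hN1mem w hw) h)
  have hN2surj : ∀ s : ℂ, 0 < s.im → ∃ z ∈ ball (0:ℂ) 1, N₂ z = s := by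
    intro s hs
    obtain ⟨w, hw1, hw2⟩ := TT_surj hs
    obtain ⟨z, hz1, hz2⟩ := hN1surj w hw1
    exact ⟨z, hz1, by show TT (N₁ z) = s; rw [hz2, hw2]⟩
  have hN20 : N₂ 0 = mu0 := by
    show TT (N₁ 0) = mu0
    rw [hN10, TT_mu0]
  -- the dilatation
  set ω : ℂ → ℂ := fun z => (p1 m₁ m₂ (N₁ z) - 1) / (p1 m₁ m₂ (N₁ z) + 1) with hω
  -- the two solutions
  have S1 : IsSolution (slitPl (A1 m₁ m₂ d₁).re (A1 m₁ m₂ c₁).re) ω
      (shear 1 (81/2) (A1 m₁ m₂) (N₁ 0)) (fun z => shear 1 (81/2) (A1 m₁ m₂) (N₁ z)) := by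
    refine isSolution_of one_pos (fun s hs => A1_deriv m₁ m₂ hs) (fun s hs => p1_re hm1 hm2 hs)
      hc1 hd1 hc10 hd10 (A1_tendsto m₁ m₂ hc1.ne) (A1_tendsto m₁ m₂ hd1.ne') hN1d hN1ne hN1mem
      hN1inj hN1surj (fun z _ => rfl) hWn ?_
    rw [hN10, hN10', ← hζW, hW]
    ring
  have S2 : IsSolution (slitPl (A2 m₁ m₂ C d₂).re (A2 m₁ m₂ C c₂).re) ω
      (shear aa BB (A2 m₁ m₂ C) (N₂ 0)) (fun z => shear aa BB (A2 m₁ m₂ C) (N₂ z)) := by
    refine isSolution_of (r := 1036880/1037283 * ‖W‖) aa_pos (fun s hs => A2_deriv m₁ m₂ C hs)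
      (fun s hs => p2_re hm1 hm2 hs)
      hc2 hd2 hc20 hd20 (A2_tendsto m₁ m₂ C hc2.ne (by linarith) (by linarith))
      (A2_tendsto m₁ m₂ C hd2.ne' (by linarith) (by linarith)) hN2d hN2ne hN2mem
      hN2inj hN2surj (fun z hz => ?_) (by positivity) ?_
    · show (p1 m₁ m₂ (N₁ z) - 1) / (p1 m₁ m₂ (N₁ z) + 1) = (p2 m₁ m₂ (TT (N₁ z)) - 1) / (p2 m₁ m₂ (TT (N₁ z)) + 1)
      rw [p2_TT m₁ m₂ (hN1mem z hz)]
    · have e1 : N₂' 0 = 25922 / (160 - mu0)^2 * (2 * I * ζ) := by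
        show 25922 / (160 - N₁ 0)^2 * N₁' 0 = _
        rw [hN10, hN10']
      have e2 : p2 m₁ m₂ mu0 = p1 m₁ m₂ mu0 := by
        have := p2_TT m₁ m₂ hmu
        rwa [TT_mu0] at this
      rw [hN20, e1, e2, ofReal_mul, ← hζW, hW]
      have h3 := dpsi_rel
      linear_combination (p1 m₁ m₂ mu0 + 1) * (2 * I * ζ) * h3
  -- the two base points agree
  have hw0 : shear aa BB (A2 m₁ m₂ C) (N₂ 0) = shear 1 (81/2) (A1 m₁ m₂) (N₁ 0) := by
    rw [hN10, hN20]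
    apply Complex.ext
    · rw [shear_re, shear_re, hbase]
    · rw [shear_im, shear_im, psi1_im_mu0, psi2_im_mu0]
  rw [← hdd, ← hcc, hw0] at S2
  refine ⟨slitPl (A1 m₁ m₂ d₁).re (A1 m₁ m₂ c₁).re, shear 1 (81/2) (A1 m₁ m₂) (N₁ 0), ω, _, _,
    slitPl_isOpen _ _, slitPl_simplyConnected _ _, slitPl_ne_univ _ _, ?_, ?_, ?_, S1, S2, ?_⟩
  · obtain ⟨h, g, _, _, _, _, _, _, h7, h8, _⟩ := S1
    rw [← h7]
    exact ⟨0, by simp, rfl⟩
  · intro z hz
    apply DifferentiableAt.differentiableWithinAt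
    have h1 := hN1mem z hz
    have h2 := ne_zero_of_im h1
    have h3 : p1 m₁ m₂ (N₁ z) + 1 ≠ 0 := by
      intro h
      have h4 := p1_re hm1 hm2 h1
      have h5 := congrArg Complex.re h
      simp at h5
      linarith
    have h4 : DifferentiableAt ℂ (p1 m₁ m₂) (N₁ z) := by
      unfold p1
      fun_prop (disch := exact h2)
    have h5 : DifferentiableAt ℂ (fun z => p1 m₁ m₂ (N₁ z)) z :=
      h4.comp z (hN1d z hz).differentiableAt
    exact (h5.sub_const 1).div (h5.add_const 1) h3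
  · intro z hz
    obtain ⟨h, g, h1, h2, _, h4, h5, _⟩ := S1
    have h6 := h4 z hz
    rw [mem_ball_zero_iff, h5 z hz, norm_div]
    have h7 : 0 < ‖deriv h z‖ := lt_of_le_of_lt (norm_nonneg _) h6
    rwa [div_lt_one h7]
  · -- the two maps differ
    obtain ⟨z, hz1, hz2⟩ := hN1surj I (by simp)
    refine ⟨z, hz1, ?_⟩
    intro h
    have h1 := congrArg Complex.im h
    simp only [shear_im] at h1
    rw [hN2] at h1
    simp only [hz2] at h1
    have hT : TT I = ((158/25601 : ℝ) : ℂ) + ((25922/25601 : ℝ) : ℂ) * I := by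
      unfold TT
      rw [div_eq_iff (den_ne (by simp))]
      push_cast
      linear_combination (25922/25601 : ℂ) * Complex.I_sq
    have hI : (I : ℂ) = ((0:ℝ):ℂ) + ((1:ℝ):ℂ) * I := by push_cast; ring
    have e1 : (psi 1 (81/2) I).im = 81/2 - Real.pi/2 := by
      have := psi_im 1 (81/2) 0 1
      rw [← hI, Complex.arg_I] at this
      rw [this]; ring
    have e2 : 81/2 - Real.pi/2 < (psi aa BB (TT I)).im := by
      rw [hT, psi_im, ← hT]
      have h3 : |Complex.arg (TT I)| < Real.pi/2 := by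
        rw [Complex.abs_arg_lt_pi_div_two_iff]
        left
        rw [hT]
        simp
      have h4 := (abs_lt.mp h3).2
      have h5 : (81/2 : ℝ) < 25922/25601 * (aa * (158/25601) + BB) := by
        unfold aa BB; norm_num
      linarith
    rw [e1] at h1
    linarith

end Pool.Agent.Results.MP_35dab7_an.NonUniqueness
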